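import Pool.Agent.KS6_37.BL.Rigid

/-!
# Continuum many Dedekind complete projective Banach lattices (MP_23899c_an, Q1, Q2)

For every `ε > 0` there are continuum many pairwise not isometrically lattice isomorphic Dedekind
complete projective Banach lattices `P t`, `t : ℝ`.  None of them is an `ℓ_1`-sum of
finite-dimensional Banach lattices; they do not even have a nontrivial `ℓ_1`-decomposition into
Banach lattices, although each is `(1 + ε)`-lattice isomorphic to `ℓ_1`.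
-/

set_option autoImplicit false

open Pool.Agent.R280.BLat Pool.Agent.KS6_37.BL Set Topology Filter
open scoped ENNReal

universe u v w w'

namespace Pool.Agent.Results.MP_23899c_an.ContinuumMany

/-- every nonempty subset of `P` which is bounded above has a supremum -/
def IsDedekindComplete (P : Type u) [Lattice P] : Prop :=
  ∀ A : Set P, A.Nonempty → BddAbove A → ∃ s, IsLUB A s

section
variable {ι : Type} (E : ι → Type w) [∀ i, NormedAddCommGroup (E i)]

/-- the `ℓ_1`-sum of the spaces `E i`: the families `x` with `∑ ‖x i‖ < ∞`, with the norm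
`∑ ‖x i‖` (Mathlib's `lp E 1`) -/
def Ell1Sum : Type w := lp E 1

noncomputable instance : NormedAddCommGroup (Ell1Sum E) :=
  inferInstanceAs (NormedAddCommGroup (lp E 1))

noncomputable instance [∀ i, NormedSpace ℝ (E i)] : NormedSpace ℝ (Ell1Sum E) :=
  inferInstanceAs (NormedSpace ℝ (lp E 1))

/-- the coordinates of an element of an `ℓ_1`-sum -/
def Ell1Sum.coord {E : ι → Type w} [∀ i, NormedAddCommGroup (E i)] (x : Ell1Sum E) (i : ι) : E i :=
  x.1 i

/-- `P` is isometrically lattice isomorphic to the `ℓ_1`-sum of the `E i`: there is a linear isometry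
`φ` of the `ℓ_1`-sum onto `P` such that `φ x ≥ 0` if and only if all coordinates of `x` are `≥ 0`. -/
def IsEll1SumOf [∀ i, NormedSpace ℝ (E i)] [∀ i, Lattice (E i)]
    (P : Type u) [NormedAddCommGroup P] [NormedSpace ℝ P] [Lattice P] : Prop :=
  ∃ φ : Ell1Sum E ≃ₗᵢ[ℝ] P, ∀ x : Ell1Sum E, 0 ≤ φ x ↔ ∀ i, 0 ≤ x.coord i

end

section
variable (P : Type u) [NormedAddCommGroup P] [NormedSpace ℝ P] [Lattice P]

/-- `P` is isometrically lattice isomorphic to the `ℓ_1`-sum of a finite or countable family of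
finite-dimensional Banach lattices. -/
def IsEll1SumOfFiniteDim : Prop :=
  ∃ (ι : Type) (_ : Countable ι) (E : ι → Type w) (_ : ∀ i, NormedAddCommGroup (E i))
    (_ : ∀ i, NormedSpace ℝ (E i)) (_ : ∀ i, Lattice (E i)),
    (∀ i, BanachLattice (E i)) ∧ (∀ i, FiniteDimensional ℝ (E i)) ∧ IsEll1SumOf E P

/-- `P` has no nontrivial `ℓ_1`-decomposition: if `P` is isometrically lattice isomorphic to the
`ℓ_1`-sum of a family of Banach lattices `E i`, then all the `E i` but one are zero. -/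
def IsEll1Indecomposable : Prop :=
  ∀ (ι : Type) (E : ι → Type w) [∀ i, NormedAddCommGroup (E i)] [∀ i, NormedSpace ℝ (E i)]
    [∀ i, Lattice (E i)], (∀ i, BanachLattice (E i)) → IsEll1SumOf E P →
      ∃ i₀, ∀ i, i ≠ i₀ → Subsingleton (E i)

/-- the sequence space `ℓ_1` -/
def Ell1 : Type := Ell1Sum fun _ : ℕ => ℝ

noncomputable instance : NormedAddCommGroup Ell1 :=
  inferInstanceAs (NormedAddCommGroup (Ell1Sum fun _ : ℕ => ℝ))

noncomputable instance : NormedSpace ℝ Ell1 :=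
  inferInstanceAs (NormedSpace ℝ (Ell1Sum fun _ : ℕ => ℝ))

/-- the coordinates -/
def Ell1.coord (x : Ell1) (n : ℕ) : ℝ := Ell1Sum.coord (E := fun _ : ℕ => ℝ) x n

/-- there is a lattice isomorphism `ψ` of `ℓ_1` onto `P` with `‖ψ x‖ ≤ ‖x‖ ≤ (1 + ε) ‖ψ x‖` -/
def IsEll1UpTo (ε : ℝ) : Prop :=
  ∃ ψ : Ell1 ≃ₗ[ℝ] P, (∀ x : Ell1, 0 ≤ ψ x ↔ ∀ n, 0 ≤ x.coord n) ∧
    ∀ x : Ell1, ‖ψ x‖ ≤ ‖x‖ ∧ ‖x‖ ≤ (1 + ε) * ‖ψ x‖

end

/-- the sequence `1, c/2, c/4, …` -/
noncomputable def seq (c : ℝ) (n : ℕ) : ℝ := if n = 0 then 1 else c * (1 / 2) ^ n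

lemma seq_sum_le {c : ℝ} (hc : 0 < c) (F : Finset ℕ) (hF : 0 ∉ F) : ∑ n ∈ F, seq c n ≤ c := by
  classical
  have h1 : HasSum (fun n : ℕ => (1 / 2 : ℝ) ^ n) 2 := by
    have := hasSum_geometric_two
    simpa using this
  have h2 := sum_le_hasSum (insert 0 F) (fun i _ => by positivity) h1
  rw [Finset.sum_insert hF] at h2
  have h3 : ∑ n ∈ F, seq c n = c * ∑ n ∈ F, (1 / 2 : ℝ) ^ n := by
    rw [Finset.mul_sum]
    refine Finset.sum_congr rfl fun n hn => ?_
    have : n ≠ 0 := by rintro rfl; exact hF hn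
    rw [seq, if_neg this]
  rw [h3]
  have h4 : ∑ n ∈ F, (1 / 2 : ℝ) ^ n ≤ 1 := by
    rw [pow_zero] at h2
    linarith
  calc c * ∑ n ∈ F, (1 / 2 : ℝ) ^ n ≤ c * 1 := mul_le_mul_of_nonneg_left h4 hc.le
    _ = c := mul_one c

lemma wt_seq {c : ℝ} (hc : 0 < c) (hc1 : c ≤ 1) : Wt (seq c) where
  zero := by rw [seq, if_pos rfl]
  pos n := by
    rw [seq]
    split_ifs
    · exact one_pos
    · positivity
  sum_le F hF := (seq_sum_le hc F hF).trans hc1

lemma seq_le {c : ℝ} (hc : 0 < c) {n : ℕ} (hn : n ≠ 0) : seq c n ≤ seq c 1 := by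
  rw [seq, seq, if_neg hn, if_neg one_ne_zero]
  refine mul_le_mul_of_nonneg_left ?_ hc.le
  exact pow_le_pow_of_le_one (by norm_num) (by norm_num) (by omega)

/-- comparison with `ℓ_1` -/
lemma exists_ell1_iso {a : ℕ → ℝ} (ha : Wt a) {δ : ℝ} (hδ0 : 0 ≤ δ)
    (hδ : ∀ F : Finset ℕ, 0 ∉ F → ∑ n ∈ F, a n ≤ δ) :
    ∃ ψ : lp (fun _ : ℕ => ℝ) 1 ≃ₗ[ℝ] (PP ha).Space,
      (∀ x : lp (fun _ : ℕ => ℝ) 1, 0 ≤ ψ x ↔ ∀ n, 0 ≤ x n) ∧
      ∀ x : lp (fun _ : ℕ => ℝ) 1, ‖ψ x‖ ≤ ‖x‖ ∧ ‖x‖ ≤ (1 + δ) * ‖ψ x‖ := by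
  classical
  have hnorm : ∀ x : lp (fun _ : ℕ => ℝ) 1, HasSum (fun n => |x n|) ‖x‖ := by
    intro x
    have h1 := lp.hasSum_norm (p := 1) (by simp) x
    simpa only [ENNReal.toReal_one, Real.rpow_one, Real.norm_eq_abs] using h1
  have hpr : ∀ x : lp (fun _ : ℕ => ℝ) 1, ∀ w ∈ WP a, pr w (fun n => x n) ≤ ‖x‖ := by
    intro x w hw
    refine le_trans ?_ (sum_le_hasSum w.support (fun n _ => abs_nonneg _) (hnorm x))
    rw [pr_eq]
    exact Finset.sum_le_sum fun n _ => mul_le_of_le_one_left (abs_nonneg _) (hw.2.1 n)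
  have hmem : ∀ x : (PP ha).Space, Memℓp (E := fun _ : ℕ => ℝ) x.fn 1 := by
    intro x
    refine memℓp_gen ?_
    have := (isL1Type_PP ha).summable x
    simpa only [ENNReal.toReal_one, Real.rpow_one, Real.norm_eq_abs] using this
  let ψ : lp (fun _ : ℕ => ℝ) 1 ≃ₗ[ℝ] (PP ha).Space :=
    { toFun := fun x => FLat.of (fun n => x n) ⟨‖x‖, hpr x⟩
      invFun := fun y => ⟨y.fn, hmem y⟩
      left_inv := fun x => by
        refine lp.ext (funext fun n => ?_)
        rfl
      right_inv := fun y => by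
        refine FLat.Space.ext fun n => ?_
        rfl
      map_add' := fun x y => rfl
      map_smul' := fun c x => rfl }
  refine ⟨ψ, fun x => Iff.rfl, fun x => ⟨?_, ?_⟩⟩
  · exact FLat.norm_le_of _ (norm_nonneg _) (hpr x)
  · refine (hnorm x).summable.hasSum.unique (hnorm x) ▸ ?_
    exact (hnorm x).summable.tsum_le_of_sum_le (sum_abs_le ha hδ0 hδ (ψ x))

/-- the parameters: an injective map `ℝ → (0, δ)` -/
noncomputable def par (δ t : ℝ) : ℝ := δ * (1 + Real.exp t)⁻¹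

lemma par_pos {δ : ℝ} (hδ : 0 < δ) (t : ℝ) : 0 < par δ t := by
  unfold par
  have := Real.exp_pos t
  positivity

lemma par_le {δ : ℝ} (hδ : 0 < δ) (t : ℝ) : par δ t ≤ δ := by
  unfold par
  have := Real.exp_pos t
  exact mul_le_of_le_one_right hδ.le (inv_le_one_of_one_le₀ (by linarith))

lemma par_inj {δ : ℝ} (hδ : 0 < δ) {s t : ℝ} (h : par δ s = par δ t) : s = t := by
  unfold par at h
  have h1 := mul_left_cancel₀ hδ.ne' h
  have h2 := inv_injective h1
  exact Real.exp_injective (by linarith)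

lemma wt_par {δ : ℝ} (hδ : 0 < δ) (hδ1 : δ ≤ 1) (t : ℝ) : Wt (seq (par δ t)) :=
  wt_seq (par_pos hδ t) ((par_le hδ t).trans hδ1)

/-- For every `ε > 0` there is a family `P t`, `t : ℝ`, of Banach lattices such that
* every `P t` is Dedekind complete and projective, and is not isometrically lattice isomorphic to the
  `ℓ_1`-sum of a finite or countable family of finite-dimensional Banach lattices;
* if `P t` is isometrically lattice isomorphic to an `ℓ_1`-sum of any family of Banach lattices `E i`,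
  then all but one of the `E i` are zero;
* there is a lattice isomorphism `ψ` of `ℓ_1` onto `P t` with `‖ψ x‖ ≤ ‖x‖ ≤ (1 + ε) ‖ψ x‖`;
* `P s` and `P t` are not isometrically lattice isomorphic for `s ≠ t`. -/
theorem result (ε : ℝ) (hε : 0 < ε) :
    ∃ (P : ℝ → Type) (_ : ∀ t, NormedAddCommGroup (P t)) (_ : ∀ t, NormedSpace ℝ (P t))
      (_ : ∀ t, Lattice (P t)),
      (∀ t, BanachLattice (P t) ∧ IsDedekindComplete (P t) ∧ IsProjective.{0, v} (P t) ∧
        ¬ IsEll1SumOfFiniteDim.{0, w} (P t) ∧ IsEll1Indecomposable.{0, w'} (P t) ∧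
        IsEll1UpTo (P t) ε) ∧
      ∀ s t, s ≠ t → ¬ IsometricLatticeIso (P s) (P t) := by
  set δ := min ε 1 with hδ
  have hδ0 : 0 < δ := lt_min hε one_pos
  have hδ1 : δ ≤ 1 := min_le_right _ _
  have hδε : δ ≤ ε := min_le_left _ _
  refine ⟨fun t => (PP (wt_par hδ0 hδ1 t)).Space, fun t => inferInstance, fun t => inferInstance,
    fun t => inferInstance, fun t => ⟨inferInstance, exists_isLUB _, isProjective_PP _,
      ?_, ?_, ?_⟩, ?_⟩
  · rintro ⟨ι, hι, E, i1, i2, i3, hE, hfd, φ, hφ⟩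
    exact not_isEll1Sum (wt_par hδ0 hδ1 t) ⟨ι, hι, E, i1, i2, i3, hE, hfd, φ, hφ⟩
  · rintro ι E _ _ _ hE ⟨φ, hφ⟩
    exact subsingleton_summand _ hE φ hφ
  · exact exists_ell1_iso (wt_par hδ0 hδ1 t) hε.le fun F hF =>
      (seq_sum_le (par_pos hδ0 t) F hF).trans ((par_le hδ0 t).trans hδε)
  · intro s t hst h
    obtain ⟨π, h0, hπ⟩ := rearrangement _ _ h
    refine hst (par_inj hδ0 ?_)
    have hne : ∀ n, n ≠ 0 → π n ≠ 0 := fun n hn h => hn (π.injective (h.trans h0.symm))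
    have hne' : π.symm 1 ≠ 0 := by
      intro h
      have := congrArg π h
      rw [Equiv.apply_symm_apply, h0] at this
      exact one_ne_zero this
    have h1 : seq (par δ s) 1 ≤ seq (par δ t) 1 := by
      rw [← hπ 1]
      exact seq_le (par_pos hδ0 t) (hne 1 one_ne_zero)
    have h2 : seq (par δ t) 1 ≤ seq (par δ s) 1 := by
      have h3 := hπ (π.symm 1)
      rw [Equiv.apply_symm_apply] at h3
      rw [h3]
      exact seq_le (par_pos hδ0 s) hne'
    have h3 := le_antisymm h1 h2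
    simp only [seq, if_neg one_ne_zero] at h3
    linarith

end Pool.Agent.Results.MP_23899c_an.ContinuumMany
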